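import Pool.Agent.Y354.DC3.Stm

/-!
# Optimal weights are regular (helper954)
-/

set_option autoImplicit false

open Finset
open scoped Classical

namespace Pool.Agent.Y954.DC3

open Pool.Agent.Y354.DC3

/-- the trilinear form -/
noncomputable def T {V : Type} [Fintype V] (N : V → V → V → Prop) (f g h : V → ℝ) : ℝ :=
  ∑ w, ∑ v, ∑ u, f w * g v * h u * I (N v u w)

theorem T_swap23 {V : Type} [Fintype V] (N : V → V → V → Prop) (hN : Sy N) (f g h : V → ℝ) :
    T N f g h = T N f h g := by
  unfold T
  refine Finset.sum_congr rfl fun w _ => ?_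
  rw [Finset.sum_comm]
  refine Finset.sum_congr rfl fun v _ => Finset.sum_congr rfl fun u _ => ?_
  have : N u v w ↔ N v u w := ⟨hN.1 _ _ _, hN.1 _ _ _⟩
  rw [show I (N u v w) = I (N v u w) by unfold I; simp only [this]]
  ring

theorem T_swap12 {V : Type} [Fintype V] (N : V → V → V → Prop) (hN : Sy N) (f g h : V → ℝ) :
    T N f g h = T N g f h := by
  unfold T
  rw [Finset.sum_comm]
  refine Finset.sum_congr rfl fun v _ => Finset.sum_congr rfl fun w _ =>
    Finset.sum_congr rfl fun u _ => ?_
  have h1 : ∀ a b c, N a b c → N c b a := fun a b c h =>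
    hN.1 _ _ _ (hN.2 _ _ _ (hN.1 _ _ _ h))
  have : N v u w ↔ N w u v := ⟨h1 _ _ _, h1 _ _ _⟩
  rw [show I (N v u w) = I (N w u v) by unfold I; simp only [this]]
  ring

theorem T_lin {V : Type} [Fintype V] (N : V → V → V → Prop) (a b : ℝ) (f f' g h : V → ℝ) :
    T N (fun v => a * f v + b * f' v) g h = a * T N f g h + b * T N f' g h := by
  unfold T
  simp only [Finset.mul_sum, ← Finset.sum_add_distrib]
  refine Finset.sum_congr rfl fun v _ => Finset.sum_congr rfl fun w _ =>
    Finset.sum_congr rfl fun u _ => ?_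
  ring

theorem tt_eq {V : Type} [Fintype V] (N : V → V → V → Prop) (μ : V → ℝ) :
    tt μ N = T N μ μ μ := by
  unfold tt dg T
  simp only [Finset.mul_sum]
  refine Finset.sum_congr rfl fun v _ => Finset.sum_congr rfl fun w _ =>
    Finset.sum_congr rfl fun u _ => ?_
  ring

theorem dg_eq {V : Type} [Fintype V] (N : V → V → V → Prop) (μ : V → ℝ) (w : V) :
    dg μ N w = T N (fun v => if v = w then 1 else 0) μ μ := by
  unfold T
  symm
  refine (Finset.sum_eq_single w ?_ ?_).trans ?_
  · intro b _ hb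
    simp [hb]
  · intro h
    exact absurd (Finset.mem_univ w) h
  · unfold dg
    simp

theorem tt_expand {V : Type} [Fintype V] (N : V → V → V → Prop) (hN : Sy N) (μ δ : V → ℝ)
    (a b : ℝ) :
    tt (fun v => a * μ v + b * δ v) N = a ^ 3 * T N μ μ μ + 3 * a ^ 2 * b * T N δ μ μ +
      3 * a * b ^ 2 * T N μ δ δ + b ^ 3 * T N δ δ δ := by
  have e1 : ∀ f g h : V → ℝ, T N f g h = T N g f h := T_swap12 N hN
  have e2 : ∀ f g h : V → ℝ, T N f g h = T N f h g := T_swap23 N hN
  have l2 : ∀ f g h k : V → ℝ, T N k (fun v => a * f v + b * g v) h =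
      a * T N f k h + b * T N g k h := by
    intro f g h k
    rw [e1, T_lin]
  have l3 : ∀ f g h k : V → ℝ, T N k h (fun v => a * f v + b * g v) =
      a * T N f k h + b * T N g k h := by
    intro f g h k
    rw [e2, l2]
  rw [tt_eq, T_lin, l2, l2, l3, l3, l3, l3]
  have h1 : T N μ δ μ = T N δ μ μ := e1 _ _ _
  have h2 : T N δ μ δ = T N μ δ δ := e1 _ _ _
  have h3 : T N δ δ μ = T N μ δ δ := by rw [e2, e1]
  have h4 : T N μ μ δ = T N δ μ μ := by rw [e2, e1]
  simp only [h1, h2, h3, h4]
  ring

theorem small {m a b c : ℝ} (hm : 0 < m)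
    (h : ∀ s : ℝ, 0 < s → s ≤ m → a + b * s + c * s ^ 2 ≤ 0) : a ≤ 0 := by
  by_contra ha
  push Not at ha
  have hb := abs_nonneg b
  have hc := abs_nonneg c
  have hden : 0 < 2 * (|b| + |c| + 1) := by positivity
  set s : ℝ := min (min m 1) (a / (2 * (|b| + |c| + 1))) with hs
  have hs0 : 0 < s := lt_min (lt_min hm one_pos) (div_pos ha hden)
  have hsm : s ≤ m := (min_le_left _ _).trans (min_le_left _ _)
  have hs1 : s ≤ 1 := (min_le_left _ _).trans (min_le_right _ _)
  have hs2 : s ≤ a / (2 * (|b| + |c| + 1)) := min_le_right _ _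
  have h2 : s * (2 * (|b| + |c| + 1)) ≤ a := by
    rwa [le_div_iff₀ hden] at hs2
  have h1 := h s hs0 hsm
  have hb1 : -(|b| * s) ≤ b * s := by
    nlinarith [neg_abs_le b]
  have hc1 : -(|c| * s) ≤ c * s ^ 2 := by
    have h3 : -(|c| * s ^ 2) ≤ c * s ^ 2 := by nlinarith [neg_abs_le c, sq_nonneg s]
    have h4 : |c| * s ^ 2 ≤ |c| * s := by
      apply mul_le_mul_of_nonneg_left _ hc
      nlinarith
    linarith
  nlinarith

theorem s_min : S_MIN := by
  intro V _ _ N hN
  have hcomp : IsCompact (stdSimplex ℝ V) := isCompact_stdSimplex ℝ V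
  have hne : (stdSimplex ℝ V).Nonempty :=
    ⟨_, single_mem_stdSimplex ℝ (Classical.arbitrary V)⟩
  have hcont : ContinuousOn (fun μ : V → ℝ => tt μ N) (stdSimplex ℝ V) := by
    apply Continuous.continuousOn
    unfold tt dg
    fun_prop
  obtain ⟨μ, hμ, hmin⟩ := hcomp.exists_isMinOn hne hcont
  have hmin' : ∀ ν : V → ℝ, Pr ν → tt μ N ≤ tt ν N := fun ν hν => hmin hν
  refine ⟨μ, hμ, hmin', ?_⟩
  intro w hw
  have key : ∀ s : ℝ, 0 < s → s ≤ μ w →
      3 * (dg μ N w - tt μ N) + (6 * dg μ N w - 3 * tt μ N -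
        3 * T N μ (fun v => if v = w then 1 else 0) (fun v => if v = w then 1 else 0)) * s +
      (3 * dg μ N w - tt μ N -
        3 * T N μ (fun v => if v = w then 1 else 0) (fun v => if v = w then 1 else 0) +
        T N (fun v => if v = w then 1 else 0) (fun v => if v = w then 1 else 0)
          (fun v => if v = w then 1 else 0)) * s ^ 2 ≤ 0 := by
    intro s hs hsw
    have hν : Pr (fun v => (1 + s) * μ v + (-s) * (if v = w then 1 else 0)) := by
      constructor
      · intro v
        by_cases hv : v = w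
        · subst hv
          simp only [if_true]
          nlinarith [hμ.1 v]
        · simp only [hv, if_false]
          have := hμ.1 v
          nlinarith
      · rw [Finset.sum_add_distrib, ← Finset.mul_sum, ← Finset.mul_sum]
        rw [hμ.2]
        simp
    have h1 := hmin' _ hν
    rw [tt_expand N hN] at h1
    rw [← tt_eq, ← dg_eq] at h1
    have h2 : 0 ≤ s * -(3 * (dg μ N w - tt μ N) + (6 * dg μ N w - 3 * tt μ N -
        3 * T N μ (fun v => if v = w then 1 else 0) (fun v => if v = w then 1 else 0)) * s +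
      (3 * dg μ N w - tt μ N -
        3 * T N μ (fun v => if v = w then 1 else 0) (fun v => if v = w then 1 else 0) +
        T N (fun v => if v = w then 1 else 0) (fun v => if v = w then 1 else 0)
          (fun v => if v = w then 1 else 0)) * s ^ 2) := by
      linarith
    have h3 := nonneg_of_mul_nonneg_right h2 hs
    linarith
  have := small hw key
  linarith

end Pool.Agent.Y954.DC3
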